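import Pool.Agent.Helper60.BFT.Goals
import Pool.Agent.Helper60.BFT.AvBasic

/-!
# Almost surely the deviations are negligible
-/

set_option autoImplicit false

open Finset Filter Topology MeasureTheory ProbabilityTheory

namespace Pool.Agent.Helper87.BFT

open Pool.Agent.Helper60.BFT

theorem YF_cases (K : ℕ) (Z : ℕ → ℕ) (β : ℕ → ℕ → (ℕ → ℕ) → ℕ) (r : ℕ) (a : ℕ → ℕ) (n : ℕ) :
    YF K Z β r a n = 0 ∨ YF K Z β r a n = 1 := by
  unfold YF
  split_ifs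
  · exact Or.inr rfl
  · exact Or.inl rfl

theorem YP_cases (K : ℕ) (Z : ℕ → ℕ) (β : ℕ → ℕ → (ℕ → ℕ) → ℕ) (a : ℕ → ℕ) (n : ℕ) :
    YP K Z β a n = 0 ∨ YP K Z β a n = 1 := by
  unfold YP
  split_ifs
  · exact Or.inr rfl
  · exact Or.inl rfl

theorem abs_chi (n : ℕ) : |chi n| = 1 := by
  unfold chi
  split_ifs <;> simp

theorem run_bound (s Y : ℕ → ℝ) (hs : ∀ n, |s n| ≤ 1) (hY : ∀ n, Y n = 0 ∨ Y n = 1) (n : ℕ) :
    |(run s Y n).1| ≤ n ∧ |(run s Y n).2| ≤ 1 := by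
  induction n with
  | zero => simp [run]
  | succ n ih =>
    obtain ⟨h1, h2⟩ := ih
    have h3 := hs n
    simp only [run]
    push_cast
    rcases hY n with h | h
    · rw [h]
      constructor
      · simp only [zero_mul, add_zero]
        linarith
      · simpa using h2
    · rw [h]
      constructor
      · have h4 : |1 * s n * (run s Y n).2| ≤ 1 := by
          rw [one_mul, abs_mul]
          exact mul_le_one₀ h3 (abs_nonneg _) h2
        exact (abs_add_le _ _).trans (add_le_add h1 h4)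
      · simpa using h3

theorem T0_bound (K : ℕ) (Z : ℕ → ℕ) (β : ℕ → ℕ → (ℕ → ℕ) → ℕ) (r : ℕ) (a : ℕ → ℕ) :
    |T0 K Z β r a| ≤ len K r := by
  unfold T0
  refine (Finset.abs_sum_le_sum_abs _ _).trans ?_
  refine (Finset.sum_le_card_nsmul _ _ 1 ?_).trans ?_
  · intro i _
    rcases YF_cases K Z β r a (r ^ K + i) with h | h <;> rw [h] <;> simp
  · simp

theorem T1_bound (K : ℕ) (Z : ℕ → ℕ) (β : ℕ → ℕ → (ℕ → ℕ) → ℕ) (r : ℕ) (a : ℕ → ℕ) :
    |T1 K Z β r a| ≤ len K r := by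
  unfold T1
  refine (Finset.abs_sum_le_sum_abs _ _).trans ?_
  refine (Finset.sum_le_card_nsmul _ _ 1 ?_).trans ?_
  · intro i _
    rw [abs_mul, abs_chi]
    rcases YF_cases K Z β r a (r ^ K + i) with h | h <;> rw [h] <;> simp
  · simp

theorem T2_bound (K : ℕ) (Z : ℕ → ℕ) (β : ℕ → ℕ → (ℕ → ℕ) → ℕ) (r : ℕ) (a : ℕ → ℕ) :
    |T2 K Z β r a| ≤ len K r := by
  unfold T2
  exact (run_bound _ _ (fun n => (abs_chi _).le) (fun n => YF_cases K Z β r a _) _).1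

theorem Rem_nonneg (K : ℕ) (Z : ℕ → ℕ) (β : ℕ → ℕ → (ℕ → ℕ) → ℕ) (r : ℕ) (a : ℕ → ℕ) :
    0 ≤ Rem K Z β r a := by
  unfold Rem
  exact Finset.sum_nonneg (fun i _ => abs_nonneg _)

theorem Rem_le (K : ℕ) (Z : ℕ → ℕ) (β : ℕ → ℕ → (ℕ → ℕ) → ℕ) (r : ℕ) (a : ℕ → ℕ) :
    Rem K Z β r a ≤ len K r := by
  unfold Rem
  refine (Finset.sum_le_card_nsmul _ _ 1 ?_).trans ?_
  · intro i _
    rcases YF_cases K Z β r a (r ^ K + i) with h | h <;>
      rcases YP_cases K Z β a (r ^ K + i) with h' | h' <;> rw [h, h'] <;> simp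
  · simp

theorem Dev_nonneg (K : ℕ) (Z : ℕ → ℕ) (β : ℕ → ℕ → (ℕ → ℕ) → ℕ) (r : ℕ) (a : ℕ → ℕ) :
    0 ≤ Dev K Z β r a := by
  unfold Dev
  have := Rem_nonneg K Z β r a
  positivity

theorem Dev_le (K : ℕ) (Z : ℕ → ℕ) (β : ℕ → ℕ → (ℕ → ℕ) → ℕ) (r : ℕ) (a : ℕ → ℕ) :
    Dev K Z β r a ≤ 7 * len K r := by
  have key : ∀ T : (ℕ → ℕ) → ℝ, (∀ b, |T b| ≤ len K r) → |T a - EE K Z T r a| ≤ 2 * len K r := by
    intro T hT
    have h1 : |EE K Z T r a| ≤ len K r := abs_Av_le_const _ lg_pos T _ a hT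
    calc |T a - EE K Z T r a| ≤ |T a| + |EE K Z T r a| := by
          simpa only [Real.norm_eq_abs] using norm_sub_le (T a) (EE K Z T r a)
      _ ≤ 2 * len K r := by linarith [hT a]
  unfold Dev
  have h0 := key _ (T0_bound K Z β r)
  have h1 := key _ (T1_bound K Z β r)
  have h2 := key _ (T2_bound K Z β r)
  have h3 := Rem_le K Z β r a
  linarith

theorem Dev_integrable (hL : LAWG) (hLoc : LOCG) {Ω : Type} [MeasurableSpace Ω] (μ : Measure Ω)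
    [IsProbabilityMeasure μ] (ω : ℕ → Ω → ℕ) (hω : Uni μ ω) (K : ℕ) (Z : ℕ → ℕ) (hZ : Monotone Z)
    (β : ℕ → ℕ → (ℕ → ℕ) → ℕ) (hβ : Adapted β) (r : ℕ) :
    Integrable (fun w => Dev K Z β r (fun p => ω p w)) μ := by
  refine (hL Ω μ ω hω [] List.nodup_nil (by simp) (max r (Z ((r + 1) ^ K))) (Dev K Z β r) ?_ ?_).1
  · intro a a' h
    exact (hLoc K Z β hZ hβ r a a' h).2.2.2.2
  · refine ⟨7 * len K r, fun a => ?_⟩
    rw [abs_of_nonneg (Dev_nonneg K Z β r a)]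
    exact Dev_le K Z β r a

/-- growth comparison -/
theorem growth (K : ℝ) (hK : 1 ≤ K) (c : ℝ) :
    ∀ᶠ R : ℕ in atTop, c + (2 * (R : ℝ)) ^ (K - 3 / 10) ≤ (R : ℝ) ^ (K - 1 / 5) := by
  have h1 : Tendsto (fun R : ℕ => (R : ℝ) ^ (1 / 10 : ℝ)) atTop atTop :=
    (tendsto_rpow_atTop (by norm_num)).comp tendsto_natCast_atTop_atTop
  filter_upwards [h1.eventually_ge_atTop (|c| + (2 : ℝ) ^ (K - 3 / 10)), eventually_ge_atTop 1]
    with R h2 h3
  have h4 : (1 : ℝ) ≤ R := by exact_mod_cast h3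
  have h5 : (1 : ℝ) ≤ (R : ℝ) ^ (K - 3 / 10) := Real.one_le_rpow h4 (by linarith)
  have h6 : (R : ℝ) ^ (K - 1 / 5) = (R : ℝ) ^ (K - 3 / 10) * (R : ℝ) ^ (1 / 10 : ℝ) := by
    rw [← Real.rpow_add (by linarith)]
    congr 1
    ring
  rw [h6, Real.mul_rpow (by norm_num) (by linarith)]
  have h7 : (0 : ℝ) ≤ (2 : ℝ) ^ (K - 3 / 10) := by positivity
  calc c + (2 : ℝ) ^ (K - 3 / 10) * (R : ℝ) ^ (K - 3 / 10)
      ≤ |c| * (R : ℝ) ^ (K - 3 / 10) + (2 : ℝ) ^ (K - 3 / 10) * (R : ℝ) ^ (K - 3 / 10) := by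
        have := le_abs_self c
        have h8 : |c| * 1 ≤ |c| * (R : ℝ) ^ (K - 3 / 10) :=
          mul_le_mul_of_nonneg_left h5 (abs_nonneg c)
        linarith
    _ = (R : ℝ) ^ (K - 3 / 10) * (|c| + (2 : ℝ) ^ (K - 3 / 10)) := by ring
    _ ≤ _ := mul_le_mul_of_nonneg_left h2 (by linarith)

theorem dvs (hE : EDVG) (hL : LAWG) (hLoc : LOCG) : DVSG := by
  intro k K hK hkK Z hZ Ω _ μ _ ω hω β hβ
  obtain ⟨C, R0, hC⟩ := hE k K hK hkK Z hZ
  have hC' := hC Ω μ ω hω β hβ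
  have hKr : (4 : ℝ) ≤ K := by exact_mod_cast hK
  set D : ℕ → Ω → ℝ := fun r w => Dev K Z β r (fun p => ω p w) with hD
  have hDint : ∀ r, Integrable (D r) μ := fun r =>
    Dev_integrable hL hLoc μ ω hω K Z hZ.mono β hβ r
  have hD0 : ∀ r w, 0 ≤ D r w := fun r w => Dev_nonneg K Z β r _
  set F : ℕ → Ω → ℝ := fun j w => ∑ r ∈ Ico R0 (2 ^ j), D r w with hF
  have hF0 : ∀ j w, 0 ≤ F j w := fun j w => Finset.sum_nonneg (fun r _ => hD0 r w)
  have hFint : ∀ j, Integrable (F j) μ := fun j => integrable_finset_sum _ (fun r _ => hDint r)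
  have hFi : ∀ j, ∫ w, F j w ∂μ ≤ C * (2 ^ (j : ℝ)) ^ ((K : ℝ) - 2 / 5) := by
    intro j
    have h1 := hC' (2 ^ j) (Nat.one_le_two_pow)
    rw [← integral_finset_sum _ (fun r _ => hDint r)] at h1
    refine h1.trans (le_of_eq ?_)
    push_cast
    rw [Real.rpow_natCast]
  have hC0 : 0 ≤ C := by
    have h1 := hFi 0
    have h2 : 0 ≤ ∫ w, F 0 w ∂μ := integral_nonneg (fun w => hF0 0 w)
    simp at h1
    linarith
  set S : ℕ → Set Ω := fun j => {w | (2 ^ (j : ℝ)) ^ ((K : ℝ) - 3 / 10) ≤ F j w} with hS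
  have hSj : ∀ j, μ (S j) ≤ ENNReal.ofReal (C * ((2 : ℝ) ^ (-(1 / 10) : ℝ)) ^ j) := by
    intro j
    have h1 := mul_meas_ge_le_integral_of_nonneg (Eventually.of_forall (hF0 j)) (hFint j)
      ((2 ^ (j : ℝ)) ^ ((K : ℝ) - 3 / 10))
    have h2 : μ (S j) = ENNReal.ofReal (μ.real (S j)) := by
      rw [Measure.real, ENNReal.ofReal_toReal (measure_ne_top _ _)]
    rw [h2]
    apply ENNReal.ofReal_le_ofReal
    have h3 : (0 : ℝ) < (2 ^ (j : ℝ)) ^ ((K : ℝ) - 3 / 10) := by positivity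
    have h4 : (2 ^ (j : ℝ)) ^ ((K : ℝ) - 3 / 10) * μ.real (S j)
        ≤ C * (2 ^ (j : ℝ)) ^ ((K : ℝ) - 2 / 5) := h1.trans (hFi j)
    have h5 : ((2 : ℝ) ^ (j : ℝ)) ^ ((K : ℝ) - 2 / 5)
        = (2 ^ (j : ℝ)) ^ ((K : ℝ) - 3 / 10) * ((2 : ℝ) ^ (-(1 / 10) : ℝ)) ^ j := by
      rw [← Real.rpow_natCast (((2 : ℝ) ^ (-(1 / 10) : ℝ))) j, ← Real.rpow_mul (by norm_num),
        ← Real.rpow_mul (by norm_num), ← Real.rpow_mul (by norm_num), ← Real.rpow_add (by norm_num)]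
      congr 1
      ring
    rw [h5] at h4
    have h6 : (2 ^ (j : ℝ)) ^ ((K : ℝ) - 3 / 10) * μ.real (S j)
        ≤ (2 ^ (j : ℝ)) ^ ((K : ℝ) - 3 / 10) * (C * ((2 : ℝ) ^ (-(1 / 10) : ℝ)) ^ j) := by
      refine h4.trans (le_of_eq ?_)
      ring
    exact le_of_mul_le_mul_left h6 h3
  have hρ : (2 : ℝ) ^ (-(1 / 10) : ℝ) < 1 :=
    Real.rpow_lt_one_of_one_lt_of_neg (by norm_num) (by norm_num)
  have hsum : Summable (fun j : ℕ => C * ((2 : ℝ) ^ (-(1 / 10) : ℝ)) ^ j) :=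
    (summable_geometric_of_lt_one (by positivity) hρ).mul_left C
  have hfin : ∑' j, μ (S j) ≠ ⊤ :=
    ne_top_of_le_ne_top hsum.tsum_ofReal_ne_top (ENNReal.tsum_le_tsum hSj)
  filter_upwards [ae_eventually_notMem hfin] with w hw
  set c : ℝ := ∑ r ∈ range R0, D r w with hc
  have htend : Tendsto (fun R : ℕ => Nat.clog 2 R) atTop atTop := by
    refine tendsto_atTop.2 (fun b => ?_)
    filter_upwards [eventually_ge_atTop (2 ^ b)] with R hR
    calc b = Nat.clog 2 (2 ^ b) := (Nat.clog_pow 2 b (by norm_num)).symm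
      _ ≤ Nat.clog 2 R := Nat.clog_mono_right 2 hR
  filter_upwards [htend.eventually hw, growth K (by linarith) c, eventually_ge_atTop 2]
    with R h1 h2 h3
  set j := Nat.clog 2 R with hj
  have hRj : R ≤ 2 ^ j := Nat.le_pow_clog (by norm_num) R
  have hjR : (2 : ℝ) ^ (j : ℝ) ≤ 2 * R := by
    have h4 : 2 ^ (j - 1) < R := Nat.pow_pred_clog_lt_self (by norm_num) (by omega)
    have h5 : 1 ≤ j := by
      by_contra h
      have : j = 0 := by omega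
      rw [this] at hRj
      simp at hRj
      omega
    have h6 : 2 ^ j = 2 * 2 ^ (j - 1) := by
      rw [← pow_succ']
      congr 1
      omega
    have h7 : 2 ^ j ≤ 2 * R := by omega
    rw [Real.rpow_natCast]
    exact_mod_cast h7
  have h8 : F j w < (2 ^ (j : ℝ)) ^ ((K : ℝ) - 3 / 10) := by
    by_contra h
    exact h1 (not_lt.1 h)
  have h9 : ((2 : ℝ) ^ (j : ℝ)) ^ ((K : ℝ) - 3 / 10) ≤ (2 * (R : ℝ)) ^ ((K : ℝ) - 3 / 10) :=
    Real.rpow_le_rpow (by positivity) hjR (by linarith)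
  have h10 : ∑ r ∈ range R, D r w ≤ c + F j w := by
    have h11 : range R ⊆ range R0 ∪ Ico R0 (2 ^ j) := by
      intro r hr
      rw [mem_union, mem_range, mem_Ico]
      rw [mem_range] at hr
      by_cases h : r < R0
      · exact Or.inl h
      · exact Or.inr ⟨not_lt.1 h, lt_of_lt_of_le hr hRj⟩
    calc ∑ r ∈ range R, D r w ≤ ∑ r ∈ range R0 ∪ Ico R0 (2 ^ j), D r w :=
          Finset.sum_le_sum_of_subset_of_nonneg h11 (fun r _ _ => hD0 r w)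
      _ ≤ ∑ r ∈ range R0, D r w + ∑ r ∈ Ico R0 (2 ^ j), D r w := by
          rw [← Finset.sum_union_inter]
          have : 0 ≤ ∑ r ∈ range R0 ∩ Ico R0 (2 ^ j), D r w :=
            Finset.sum_nonneg (fun r _ => hD0 r w)
          linarith
  calc ∑ r ∈ range R, D r w ≤ c + F j w := h10
    _ ≤ c + (2 * (R : ℝ)) ^ ((K : ℝ) - 3 / 10) := by linarith
    _ ≤ _ := h2

end Pool.Agent.Helper87.BFT
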