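import Pool.Agent.Helper60.BFT.Goals

/-!
# The main terms dominate
-/

set_option autoImplicit false

open Finset Filter Topology Asymptotics

namespace Pool.Agent.Helper87.BFT

open Pool.Agent.Helper60.BFT
open Pool.Agent.Helper90.Twin (Ps Gz Gz_anti Gz_pos inv_Gz_le_pow LL LL_le LL_ge_one)

theorem len_cast (K r : ℕ) : (len K r : ℝ) = ((r + 1 : ℕ) : ℝ) ^ K - (r : ℝ) ^ K := by
  unfold len
  rw [Nat.cast_sub (Nat.pow_le_pow_left (Nat.le_succ r) K)]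
  push_cast
  ring

theorem sum_len (K R : ℕ) (hK : 1 ≤ K) : ∑ r ∈ range R, (len K r : ℝ) = (R : ℝ) ^ K := by
  simp only [len_cast]
  rw [Finset.sum_range_sub (fun i : ℕ => (i : ℝ) ^ K)]
  have : ((0 : ℕ) : ℝ) ^ K = 0 := by
    rw [Nat.cast_zero, zero_pow (by omega)]
  rw [this, sub_zero]

theorem sum_mT_ge (k K : ℕ) (hK : 1 ≤ K) (Z : ℕ → ℕ) (hZ : Cut k Z) (R : ℕ) :
    Gz (R ^ K) / 6 * (R : ℝ) ^ K ≤ ∑ r ∈ range R, mT K Z r := by
  rw [← sum_len K R hK, Finset.mul_sum]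
  apply Finset.sum_le_sum
  intro r hr
  unfold mT
  have h1 : Z (r ^ K) ≤ R ^ K :=
    (hZ.le _).trans (Nat.pow_le_pow_left (mem_range.1 hr).le K)
  have h2 := Gz_anti h1
  have h3 : (0 : ℝ) ≤ len K r := Nat.cast_nonneg _
  nlinarith [mul_le_mul_of_nonneg_left h2 h3]

theorem len_le (K R : ℕ) : (len K R : ℝ) ≤ K * ((R : ℝ) + 1) ^ (K - 1) := by
  rw [len_cast]
  push_cast
  have h1 : ((R : ℝ) + 1) ^ K - (R : ℝ) ^ K
      = (∑ i ∈ range K, ((R : ℝ) + 1) ^ i * (R : ℝ) ^ (K - 1 - i)) * (((R : ℝ) + 1) - R) :=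
    (Commute.geom_sum₂_mul (Commute.all _ _) K).symm
  rw [h1]
  have h2 : ∑ i ∈ range K, ((R : ℝ) + 1) ^ i * (R : ℝ) ^ (K - 1 - i)
      ≤ ∑ i ∈ range K, ((R : ℝ) + 1) ^ (K - 1) := by
    apply Finset.sum_le_sum
    intro i hi
    have hi' := mem_range.1 hi
    have h3 : (R : ℝ) ^ (K - 1 - i) ≤ ((R : ℝ) + 1) ^ (K - 1 - i) :=
      pow_le_pow_left₀ (Nat.cast_nonneg _) (by linarith) _
    calc ((R : ℝ) + 1) ^ i * (R : ℝ) ^ (K - 1 - i)
        ≤ ((R : ℝ) + 1) ^ i * ((R : ℝ) + 1) ^ (K - 1 - i) :=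
          mul_le_mul_of_nonneg_left h3 (by positivity)
      _ = ((R : ℝ) + 1) ^ (K - 1) := by
          rw [← pow_add]
          congr 1
          omega
  rw [Finset.sum_const, Finset.card_range, nsmul_eq_mul] at h2
  have h4 : ((R : ℝ) + 1) - R = 1 := by ring
  rw [h4, mul_one]
  exact h2

/-- powers beat powers of the logarithm -/
theorem log_growth (K : ℝ) (hK : 0 ≤ K) (c : ℝ) (hc : 0 < c) :
    ∀ᶠ R : ℕ in atTop, c * (2 * (K * Real.log R) + 1) ^ 14 ≤ (R : ℝ) ^ (1 / 5 : ℝ) := by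
  have h1 : ∀ᶠ x : ℝ in atTop, ‖Real.log x‖ ≤ (1 / (4 * (K + 1))) * ‖x ^ (1 / 100 : ℝ)‖ :=
    (isLittleO_log_rpow_atTop (by norm_num : (0 : ℝ) < 1 / 100)).def (by positivity)
  have h2 : Tendsto (fun R : ℕ => (R : ℝ) ^ (1 / 100 : ℝ)) atTop atTop :=
    (tendsto_rpow_atTop (by norm_num)).comp tendsto_natCast_atTop_atTop
  have h3 : Tendsto (fun R : ℕ => (R : ℝ) ^ (6 / 100 : ℝ)) atTop atTop :=
    (tendsto_rpow_atTop (by norm_num)).comp tendsto_natCast_atTop_atTop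
  filter_upwards [tendsto_natCast_atTop_atTop.eventually h1, h2.eventually_ge_atTop 2,
    h3.eventually_ge_atTop c, eventually_ge_atTop 1] with R h4 h5 h6 h7
  have h8 : (1 : ℝ) ≤ R := by exact_mod_cast h7
  have h9 : 0 ≤ Real.log R := Real.log_nonneg h8
  rw [Real.norm_of_nonneg h9, Real.norm_of_nonneg (by positivity)] at h4
  have h10 : 2 * (K * Real.log R) ≤ (R : ℝ) ^ (1 / 100 : ℝ) / 2 := by
    have h11 : K * Real.log R ≤ (K + 1) * (1 / (4 * (K + 1)) * (R : ℝ) ^ (1 / 100 : ℝ)) := by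
      have := mul_le_mul_of_nonneg_left h4 (by linarith : (0 : ℝ) ≤ K + 1)
      nlinarith
    have h12 : (K + 1) * (1 / (4 * (K + 1)) * (R : ℝ) ^ (1 / 100 : ℝ))
        = (R : ℝ) ^ (1 / 100 : ℝ) / 4 := by
      have : K + 1 ≠ 0 := by positivity
      field_simp
    linarith
  have h13 : 2 * (K * Real.log R) + 1 ≤ (R : ℝ) ^ (1 / 100 : ℝ) := by linarith
  have h14 : 0 ≤ 2 * (K * Real.log R) + 1 := by positivity
  calc c * (2 * (K * Real.log R) + 1) ^ 14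
      ≤ (R : ℝ) ^ (6 / 100 : ℝ) * ((R : ℝ) ^ (1 / 100 : ℝ)) ^ 14 := by
        apply mul_le_mul h6 (pow_le_pow_left₀ h14 h13 14) (by positivity) (by positivity)
    _ = (R : ℝ) ^ (1 / 5 : ℝ) := by
        rw [← Real.rpow_natCast, ← Real.rpow_mul (by linarith), ← Real.rpow_add (by linarith)]
        congr 1
        norm_num

theorem low : LOWG := by
  intro k K hK hkK Z hZ η hη
  have hKr : (4 : ℝ) ≤ K := by exact_mod_cast hK
  have hlen : ∀ᶠ R : ℕ in atTop, (len K R : ℝ) ≤ (R : ℝ) ^ ((K : ℝ) - 1 / 5) := by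
    have h1 : Tendsto (fun R : ℕ => (R : ℝ) ^ (4 / 5 : ℝ)) atTop atTop :=
      (tendsto_rpow_atTop (by norm_num)).comp tendsto_natCast_atTop_atTop
    filter_upwards [h1.eventually_ge_atTop ((K : ℝ) * 2 ^ (K - 1)), eventually_ge_atTop 1]
      with R h2 h3
    have h4 : (1 : ℝ) ≤ R := by exact_mod_cast h3
    calc (len K R : ℝ) ≤ K * ((R : ℝ) + 1) ^ (K - 1) := len_le K R
      _ ≤ K * (2 * (R : ℝ)) ^ (K - 1) := by
          apply mul_le_mul_of_nonneg_left _ (Nat.cast_nonneg _)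
          exact pow_le_pow_left₀ (by linarith) (by linarith) _
      _ = (K * 2 ^ (K - 1)) * (R : ℝ) ^ (K - 1) := by
          rw [mul_pow]
          ring
      _ ≤ (R : ℝ) ^ (4 / 5 : ℝ) * (R : ℝ) ^ (K - 1) :=
          mul_le_mul_of_nonneg_right h2 (by positivity)
      _ = (R : ℝ) ^ ((K : ℝ) - 1 / 5) := by
          rw [← Real.rpow_natCast, ← Real.rpow_add (by linarith)]
          congr 1
          rw [Nat.cast_sub (by omega)]
          push_cast
          ring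
  have hmain : ∀ᶠ R : ℕ in atTop, (R : ℝ) ^ ((K : ℝ) - 1 / 5) ≤ η * ∑ r ∈ range R, mT K Z r := by
    filter_upwards [log_growth K (by linarith) (6 * Real.exp 14 / η) (by positivity),
      eventually_ge_atTop 1] with R h1 h2
    have h3 : (1 : ℝ) ≤ R := by exact_mod_cast h2
    have h4 := sum_mT_ge k K (by omega) Z hZ R
    have h5 := Gz_pos (R ^ K)
    have h6 := inv_Gz_le_pow (R ^ K)
    have h7 : LL (R ^ K) ≤ 2 * (K * Real.log R) + 1 := by
      have := LL_le (R ^ K) (Nat.one_le_pow _ _ (by omega))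
      push_cast at this
      rw [Real.log_pow] at this
      exact this
    have h8 : (Gz (R ^ K))⁻¹ ≤ Real.exp 14 * (2 * (K * Real.log R) + 1) ^ 14 := by
      refine h6.trans ?_
      apply mul_le_mul_of_nonneg_left _ (Real.exp_pos _).le
      exact pow_le_pow_left₀ (by linarith [LL_ge_one (R ^ K)]) h7 14
    have h9 : 6 / η * (Gz (R ^ K))⁻¹ ≤ (R : ℝ) ^ (1 / 5 : ℝ) := by
      calc 6 / η * (Gz (R ^ K))⁻¹ ≤ 6 / η * (Real.exp 14 * (2 * (K * Real.log R) + 1) ^ 14) :=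
            mul_le_mul_of_nonneg_left h8 (by positivity)
        _ = 6 * Real.exp 14 / η * (2 * (K * Real.log R) + 1) ^ 14 := by ring
        _ ≤ _ := h1
    have h10 : (1 : ℝ) ≤ η * (Gz (R ^ K) / 6) * (R : ℝ) ^ (1 / 5 : ℝ) := by
      have h11 : η * (Gz (R ^ K) / 6) * (6 / η * (Gz (R ^ K))⁻¹) = 1 := by
        field_simp
      calc (1 : ℝ) = η * (Gz (R ^ K) / 6) * (6 / η * (Gz (R ^ K))⁻¹) := h11.symm
        _ ≤ _ := mul_le_mul_of_nonneg_left h9 (by positivity)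
    have h12 : (R : ℝ) ^ K = (R : ℝ) ^ ((K : ℝ) - 1 / 5) * (R : ℝ) ^ (1 / 5 : ℝ) := by
      rw [← Real.rpow_add (by linarith), ← Real.rpow_natCast]
      congr 1
      ring
    calc (R : ℝ) ^ ((K : ℝ) - 1 / 5)
        ≤ (R : ℝ) ^ ((K : ℝ) - 1 / 5) * (η * (Gz (R ^ K) / 6) * (R : ℝ) ^ (1 / 5 : ℝ)) :=
          le_mul_of_one_le_right (by positivity) h10
      _ = η * (Gz (R ^ K) / 6 * (R : ℝ) ^ K) := by
          rw [h12]
          ring
      _ ≤ _ := mul_le_mul_of_nonneg_left h4 hη.le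
  filter_upwards [hlen, hmain] with R h1 h2
  exact ⟨h2, h1.trans h2⟩

end Pool.Agent.Helper87.BFT
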